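import Pool.Agent.helper84.QI.Spec

/-!
# Row JIN: the quotient by the largest finite normal subgroup is just infinite
-/

set_option autoImplicit false

namespace Pool.Agent.QI

theorem JIN (hNIN : NIN_stmt) : JIN_stmt := by
  intro G _ a b hCE E _ hE N hN hbot
  have hN' : (N.comap (QuotientGroup.mk' E)).Normal := hN.comap _
  by_cases hf : ((N.comap (QuotientGroup.mk' E) : Subgroup G) : Set G).Finite
  · exfalso
    have h1 := hE _ hN' hf
    apply hbot
    rw [eq_bot_iff]
    intro x hx
    obtain ⟨g, rfl⟩ := QuotientGroup.mk'_surjective E x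
    have h2 : g ∈ N.comap (QuotientGroup.mk' E) := hx
    have h3 := h1 h2
    rw [Subgroup.mem_bot]
    exact (QuotientGroup.eq_one_iff g).2 h3
  · have hfi := hNIN G a b hCE _ hN' hf
    refine ⟨?_⟩
    rw [← Subgroup.index_comap_of_surjective N (QuotientGroup.mk'_surjective E)]
    exact hfi.index_ne_zero

end Pool.Agent.QI
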